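import Pool.Agent.Lib_helper13.Robin.Geo

/-!
# Robin project, block MV: mean value formula in a conical ball
-/

namespace Pool.Agent.Lib_helper58.Robin

open MeasureTheory Set Metric Filter Topology
open scoped RealInnerProductSpace ContDiff Pointwise
open Pool.Agent.Lib_helper13.Robin

noncomputable section

variable {d m : ℕ} (P : PD d m)

/-- the unit-ball part of the tangent cone at `p` -/
def mvU (p : E d) : Set (E d) := {z | z ∈ ball (0 : E d) 1 ∧ ∀ i ∈ P.A p, ⟪P.ν i, z⟫ < 0}

theorem mvU_meas (p : E d) : MeasurableSet (mvU P p) := by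
  classical
  have : mvU P p = ball (0 : E d) 1 ∩ ⋂ i, {z | i ∈ P.A p → ⟪P.ν i, z⟫ < 0} := by
    ext z; simp [mvU]
  rw [this]
  refine measurableSet_ball.inter (MeasurableSet.iInter fun i => ?_)
  by_cases hi : i ∈ P.A p
  · simp only [hi, true_implies]
    exact (isOpen_lt (by fun_prop) continuous_const).measurableSet
  · simp only [hi, false_implies, Set.ofPred_true]
    exact MeasurableSet.univ

variable {P}

theorem mvU_mem {p : E d} {R s : ℝ} (hC : P.Con p R) (hs : 0 < s) (hsR : s ≤ R) (z : E d) :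
    z ∈ mvU P p ↔ p + s • z ∈ P.Om ∩ ball p s := by
  have hball : p + s • z ∈ ball p s ↔ z ∈ ball (0 : E d) 1 := by
    simp only [mem_ball, dist_eq_norm, add_sub_cancel_left, sub_zero, norm_smul, Real.norm_eq_abs,
      abs_of_pos hs]
    constructor
    · intro h
      by_contra hn
      push Not at hn
      have := mul_le_mul_of_nonneg_left hn hs.le
      linarith
    · intro h
      have := mul_lt_mul_of_pos_left h hs
      linarith
  constructor
  · rintro ⟨h1, h2⟩
    have hb := hball.2 h1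
    refine ⟨?_, hb⟩
    rw [hC.mem_Om_iff (ball_subset_ball hsR hb)]
    intro i hi
    rw [add_sub_cancel_left, inner_smul_right]
    exact mul_neg_of_pos_of_neg hs (h2 i hi)
  · rintro ⟨h1, hb⟩
    refine ⟨hball.1 hb, fun i hi => ?_⟩
    have := (hC.mem_Om_iff (ball_subset_ball hsR hb)).1 h1 i hi
    rw [add_sub_cancel_left, inner_smul_right] at this
    by_contra hn
    push Not at hn
    have := mul_nonneg hs.le hn
    linarith

theorem mv_scale {p : E d} {R s : ℝ} (hC : P.Con p R) (hs : 0 < s) (hsR : s ≤ R) (F : E d → ℝ) :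
    ∫ z in mvU P p, F (p + s • z) = (s ^ d)⁻¹ * ∫ x in P.Om ∩ ball p s, F x := by
  have h1 := MeasureTheory.Measure.setIntegral_comp_smul_of_pos (μ := (volume : Measure (E d)))
    (fun y => F (p + y)) (mvU P p) hs
  rw [h1]
  rw [finrank_euclideanSpace, Fintype.card_fin, smul_eq_mul]
  congr 1
  have h2 : s • mvU P p = (fun y => p + y) ⁻¹' (P.Om ∩ ball p s) := by
    ext y
    rw [mem_preimage, Set.mem_smul_set_iff_inv_smul_mem₀ hs.ne', mvU_mem hC hs hsR,
      smul_inv_smul₀ hs.ne']
  rw [h2]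
  exact (measurePreserving_add_left volume p).setIntegral_preimage_emb
    (measurableEmbedding_addLeft p) F _

theorem mv_integrable {p : E d} {R s : ℝ} (hC : P.Con p R) (hs : 0 < s) (hsR : s ≤ R)
    {F : E d → ℝ} (hF : IntegrableOn F (P.Om ∩ ball p s)) :
    IntegrableOn (fun z => F (p + s • z)) (mvU P p) := by
  have hm : MeasurableSet (P.Om ∩ ball p s) := P.measurableSet_Om.inter measurableSet_ball
  have h1 : Integrable ((P.Om ∩ ball p s).indicator F) := (integrable_indicator_iff hm).2 hF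
  have h2 := (h1.comp_add_left p).comp_smul hs.ne'
  rw [← integrable_indicator_iff (mvU_meas P p)]
  have h3 : (mvU P p).indicator (fun z => F (p + s • z)) =
      fun z => (P.Om ∩ ball p s).indicator F (p + s • z) := by
    funext z
    by_cases hz : z ∈ mvU P p
    · rw [indicator_of_mem hz, indicator_of_mem ((mvU_mem hC hs hsR z).1 hz)]
    · rw [indicator_of_notMem hz, indicator_of_notMem (fun h => hz ((mvU_mem hC hs hsR z).2 h))]
  rw [h3]
  exact h2

theorem th_nonneg (z : E d) : 0 ≤ th z := le_max_right _ _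

theorem th_le_one (z : E d) : th z ≤ 1 := by
  unfold th
  apply max_le
  · have := sq_nonneg ‖z‖; linarith
  · norm_num

theorem th_cont : Continuous (th : E d → ℝ) := by
  unfold th; fun_prop

theorem th_zero {z : E d} (h : z ∉ ball (0 : E d) 1) : th z = 0 := by
  unfold th
  simp only [mem_ball, dist_zero_right, not_lt] at h
  apply max_eq_right
  nlinarith [norm_nonneg z]

/-- derivative of `max y 0 ^ 2` -/
theorem hasDerivAt_max_sq (y : ℝ) : HasDerivAt (fun y : ℝ => max y 0 ^ 2) (2 * max y 0) y := by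
  rcases lt_trichotomy y 0 with h | h | h
  · have h1 : (fun y : ℝ => max y 0 ^ 2) =ᶠ[𝓝 y] fun _ => 0 := by
      filter_upwards [Iio_mem_nhds h] with t ht
      rw [max_eq_right (le_of_lt ht)]; norm_num
    rw [max_eq_right h.le, mul_zero]
    exact (hasDerivAt_const y (0 : ℝ)).congr_of_eventuallyEq h1
  · subst h
    rw [max_self, mul_zero]
    rw [hasDerivAt_iff_isLittleO]
    simp only [max_self, ne_eq, OfNat.ofNat_ne_zero, not_false_eq_true, zero_pow, sub_zero,
      smul_zero]
    rw [Asymptotics.isLittleO_iff]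
    intro c hc
    filter_upwards [Metric.ball_mem_nhds (0 : ℝ) hc] with t ht
    rw [mem_ball, dist_zero_right, Real.norm_eq_abs] at ht
    rw [Real.norm_eq_abs, Real.norm_eq_abs]
    have h1 : max t 0 ≤ |t| := max_le (le_abs_self t) (abs_nonneg t)
    have h0 : 0 ≤ max t 0 := le_max_right _ _
    rw [abs_of_nonneg (by positivity)]
    have : max t 0 ^ 2 ≤ |t| * |t| := by
      rw [pow_two]; exact mul_le_mul h1 h1 h0 (abs_nonneg t)
    have h3 : |t| * |t| ≤ c * |t| := mul_le_mul_of_nonneg_right ht.le (abs_nonneg t)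
    linarith
  · have h1 : (fun y : ℝ => max y 0 ^ 2) =ᶠ[𝓝 y] fun y => y ^ 2 := by
      filter_upwards [Ioi_mem_nhds h] with t ht
      rw [max_eq_left (le_of_lt ht)]
    rw [max_eq_left h.le]
    have := (hasDerivAt_pow 2 y).congr_of_eventuallyEq h1
    simpa using this

theorem contDiff_max_sq : ContDiff ℝ 1 (fun y : ℝ => max y 0 ^ 2) := by
  rw [contDiff_one_iff_deriv]
  refine ⟨fun y => (hasDerivAt_max_sq y).differentiableAt, ?_⟩
  have : deriv (fun y : ℝ => max y 0 ^ 2) = fun y => 2 * max y 0 :=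
    funext fun y => (hasDerivAt_max_sq y).deriv
  rw [this]; fun_prop

/-- the rescaled kernel -/
def ThS (p : E d) (s : ℝ) (x : E d) : ℝ := Th (s⁻¹ • (x - p))

theorem ThS_contDiff (p : E d) (s : ℝ) : ContDiff ℝ 1 (ThS p s) := by
  have : ThS p s = fun x => (fun y : ℝ => max y 0 ^ 2) (1 - ‖s⁻¹ • (x - p)‖ ^ 2) / 4 := by
    ext x; simp [ThS, Th]
  rw [this]
  apply ContDiff.div_const
  apply contDiff_max_sq.comp
  apply contDiff_const.sub
  apply ContDiff.norm_sq ℝ
  fun_prop

theorem ThS_grad (p : E d) (s : ℝ) (x : E d) :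
    gradient (ThS p s) x = (-(s⁻¹ ^ 2 * th (s⁻¹ • (x - p)))) • (x - p) := by
  apply HasGradientAt.gradient
  rw [hasGradientAt_iff_hasFDerivAt]
  have h0 : HasFDerivAt (fun x : E d => s⁻¹ • (x - p)) (s⁻¹ • ContinuousLinearMap.id ℝ (E d)) x :=
    ((hasFDerivAt_id x).sub_const p).const_smul s⁻¹
  have h1 := h0.norm_sq
  have h2 : HasFDerivAt (fun x : E d => 1 - ‖s⁻¹ • (x - p)‖ ^ 2) _ x := h1.const_sub 1
  have h3 := (hasDerivAt_max_sq (1 - ‖s⁻¹ • (x - p)‖ ^ 2)).comp_hasFDerivAt x h2
  have h4 := h3.mul_const (1 / 4 : ℝ)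
  have h5 : ThS p s = fun x => (fun y : ℝ => max y 0 ^ 2) (1 - ‖s⁻¹ • (x - p)‖ ^ 2) * (1 / 4) := by
    ext x; simp [ThS, Th]; ring
  rw [h5]
  refine h4.congr_fderiv ?_
  ext v
  simp only [Function.comp, InnerProductSpace.toDual_apply_apply, inner_smul_left, th,
    ContinuousLinearMap.smul_apply, ContinuousLinearMap.neg_apply, smul_eq_mul,
    ContinuousLinearMap.comp_apply, ContinuousLinearMap.id_apply, innerSL_apply_apply,
    nsmul_eq_mul, Nat.cast_ofNat, real_inner_smul_left, real_inner_smul_right, conj_trivial,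
    neg_mul, mul_neg]
  ring

theorem ThS_supp (p : E d) {s : ℝ} (hs : 0 < s) {x : E d} (hx : x ∉ ball p s) : ThS p s x = 0 := by
  unfold ThS Th
  have h1 : 1 ≤ ‖s⁻¹ • (x - p)‖ := by
    rw [norm_smul, Real.norm_eq_abs, abs_of_pos (inv_pos.2 hs)]
    rw [mem_ball, dist_eq_norm, not_lt] at hx
    rw [inv_mul_eq_div, le_div_iff₀ hs]; linarith
  rw [max_eq_right (by nlinarith [norm_nonneg (s⁻¹ • (x - p))])]
  norm_num

theorem ThS_tsupport (p : E d) {s : ℝ} (hs : 0 < s) : tsupport (ThS p s) ⊆ closedBall p s := by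
  apply closure_minimal _ isClosed_closedBall
  intro x hx
  by_contra hn
  exact hx (ThS_supp p hs fun h => hn (ball_subset_closedBall h))

/-- **MV.** mean value formula in a conical ball -/
theorem mv (P : PD d m) {p : E d} {R : ℝ} (hC : P.Con p R) (Q g : E d → ℝ)
    (hQ : ContDiffOn ℝ 1 Q (P.Om ∩ ball p R))
    (hQi : ∀ r < R, IntegrableOn Q (P.Om ∩ ball p r))
    (hQg : ∀ r < R, IntegrableOn (fun x => ‖gradient Q x‖) (P.Om ∩ ball p r))
    (hg : ∀ r < R, IntegrableOn g (P.Om ∩ ball p r))
    (heq : ∀ ψ : E d → ℝ, ContDiff ℝ 1 ψ → HasCompactSupport ψ → tsupport ψ ⊆ ball p R →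
      ∫ x in P.Om, ⟪gradient Q x, gradient ψ x⟫ = - ∫ x in P.Om, ψ x * g x)
    {t1 t2 : ℝ} (h1 : 0 < t1) (h12 : t1 ≤ t2) (h2 : t2 < R) :
    IntervalIntegrable (fun s => s ^ (1 - (d : ℤ)) * ∫ x in P.Om, g x * Th (s⁻¹ • (x - p)))
      volume t1 t2 ∧
    mm P Q p t2 - mm P Q p t1 =
      ∫ s in t1..t2, s ^ (1 - (d : ℤ)) * ∫ x in P.Om, g x * Th (s⁻¹ • (x - p)) := by
  set U := mvU P p with hU
  have hUm : MeasurableSet U := mvU_meas P p
  have hO : IsOpen (P.Om ∩ ball p R) := P.isOpen_Om.inter isOpen_ball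
  have hgc : ContinuousOn (gradient Q) (P.Om ∩ ball p R) := by
    have := hQ.continuousOn_fderiv_of_isOpen hO le_rfl
    unfold gradient
    exact ((InnerProductSpace.toDual ℝ (E d)).symm.continuous.comp_continuousOn this)
  -- the function on the product
  let Φ : ℝ × E d → ℝ := fun q => th q.2 * ⟪q.2, gradient Q (p + q.1 • q.2)⟫
  have hmaps : ∀ s ∈ Icc t1 t2, ∀ z ∈ U, p + s • z ∈ P.Om ∩ ball p R := by
    intro s hs z hz
    have h3 := (mvU_mem hC (h1.trans_le hs.1) (hs.2.trans h2.le) z).1 hz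
    exact ⟨h3.1, ball_subset_ball (hs.2.trans h2.le) h3.2⟩
  have hcont : ContinuousOn Φ (Icc t1 t2 ×ˢ U) := by
    apply ContinuousOn.mul
    · exact (th_cont.comp continuous_snd).continuousOn
    · refine ContinuousOn.inner (𝕜 := ℝ) continuous_snd.continuousOn ?_
      refine hgc.comp (by fun_prop) ?_
      rintro ⟨s, z⟩ ⟨hs, hz⟩
      exact hmaps s hs z hz
  have hmeas : AEStronglyMeasurable Φ
      ((volume.restrict (Icc t1 t2)).prod (volume.restrict U)) := by
    rw [Measure.prod_restrict]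
    exact hcont.aestronglyMeasurable (measurableSet_Icc.prod hUm)
  have hgint : IntegrableOn (fun x => ‖gradient Q x‖) (P.Om ∩ ball p t2) := hQg t2 h2
  have hgsub : ∀ s ∈ Icc t1 t2, IntegrableOn (fun x => ‖gradient Q x‖) (P.Om ∩ ball p s) :=
    fun s hs => hgint.mono_set (inter_subset_inter_right _ (ball_subset_ball hs.2))
  have hbound : ∀ s : ℝ, ∀ z ∈ U, ‖Φ (s, z)‖ ≤ ‖gradient Q (p + s • z)‖ := by
    intro s z hz
    have hz1 : ‖z‖ ≤ 1 := by
      have := hz.1; rw [mem_ball, dist_zero_right] at this; exact this.le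
    simp only [Φ, norm_mul, Real.norm_eq_abs]
    rw [abs_of_nonneg (th_nonneg z)]
    calc th z * |⟪z, gradient Q (p + s • z)⟫| ≤ 1 * (‖z‖ * ‖gradient Q (p + s • z)‖) :=
          mul_le_mul (th_le_one z) (abs_real_inner_le_norm _ _) (abs_nonneg _) zero_le_one
      _ ≤ 1 * (1 * ‖gradient Q (p + s • z)‖) := by
          gcongr
      _ = ‖gradient Q (p + s • z)‖ := by ring
  have hslice : ∀ s ∈ Icc t1 t2, Integrable (fun z => Φ (s, z)) (volume.restrict U) := by
    intro s hs
    have hi : IntegrableOn (fun z => ‖gradient Q (p + s • z)‖) U :=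
      mv_integrable hC (h1.trans_le hs.1) (hs.2.trans h2.le) (F := fun x => ‖gradient Q x‖)
        (hgsub s hs)
    refine Integrable.mono' hi ?_ ?_
    · have : ContinuousOn (fun z => Φ (s, z)) U :=
        hcont.comp (by fun_prop) fun z hz => ⟨hs, hz⟩
      exact this.aestronglyMeasurable hUm
    · exact (ae_restrict_iff' hUm).2 (Eventually.of_forall fun z hz => hbound s z hz)
  have hI0 : 0 ≤ ∫ x in P.Om ∩ ball p t2, ‖gradient Q x‖ :=
    integral_nonneg fun _ => norm_nonneg _
  have hprod : Integrable Φ ((volume.restrict (Icc t1 t2)).prod (volume.restrict U)) := by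
    rw [integrable_prod_iff hmeas]
    refine ⟨(ae_restrict_iff' measurableSet_Icc).2 (Eventually.of_forall hslice), ?_⟩
    have hc : Integrable (fun _ : ℝ => (t1 ^ d)⁻¹ * ∫ x in P.Om ∩ ball p t2, ‖gradient Q x‖)
        (volume.restrict (Icc t1 t2)) := by
      exact integrable_const _
    refine Integrable.mono' hc hmeas.norm.integral_prod_right' ?_
    refine (ae_restrict_iff' measurableSet_Icc).2 (Eventually.of_forall fun s hs => ?_)
    have hs0 : 0 < s := h1.trans_le hs.1
    rw [Real.norm_eq_abs, abs_of_nonneg (integral_nonneg fun _ => norm_nonneg _)]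
    calc ∫ z in U, ‖Φ (s, z)‖ ≤ ∫ z in U, ‖gradient Q (p + s • z)‖ := by
          apply setIntegral_mono_on (hslice s hs).norm
            (mv_integrable hC hs0 (hs.2.trans h2.le) (F := fun x => ‖gradient Q x‖) (hgsub s hs))
            hUm
          intro z hz; exact hbound s z hz
      _ = (s ^ d)⁻¹ * ∫ x in P.Om ∩ ball p s, ‖gradient Q x‖ :=
          mv_scale hC hs0 (hs.2.trans h2.le) fun x => ‖gradient Q x‖
      _ ≤ (t1 ^ d)⁻¹ * ∫ x in P.Om ∩ ball p t2, ‖gradient Q x‖ := by
          apply mul_le_mul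
          · apply inv_anti₀ (by positivity)
            exact pow_le_pow_left₀ h1.le hs.1 d
          · apply setIntegral_mono_set hgint
            · exact Eventually.of_forall fun _ => norm_nonneg _
            · exact (inter_subset_inter_right _ (ball_subset_ball hs.2)).eventuallyLE
          · exact integral_nonneg fun _ => norm_nonneg _
          · positivity
  -- inner integral
  have hinner : ∀ s ∈ Icc t1 t2, ∫ z in U, Φ (s, z) =
      s ^ (1 - (d : ℤ)) * ∫ x in P.Om, g x * Th (s⁻¹ • (x - p)) := by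
    intro s hs
    have hs0 : 0 < s := h1.trans_le hs.1
    have e1 := mv_scale hC hs0 (hs.2.trans h2.le)
      (fun x => th (s⁻¹ • (x - p)) * ⟪s⁻¹ • (x - p), gradient Q x⟫)
    have e2 : ∫ z in U, Φ (s, z) = ∫ z in U, (fun x => th (s⁻¹ • (x - p)) *
        ⟪s⁻¹ • (x - p), gradient Q x⟫) (p + s • z) := by
      congr 1
      ext z
      simp only [Φ, add_sub_cancel_left, inv_smul_smul₀ hs0.ne']
    rw [e2, e1]
    have e3 : ∫ x in P.Om ∩ ball p s, th (s⁻¹ • (x - p)) * ⟪s⁻¹ • (x - p), gradient Q x⟫ =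
        ∫ x in P.Om, (-s) * ⟪gradient Q x, gradient (ThS p s) x⟫ := by
      rw [← setIntegral_eq_of_subset_of_forall_sdiff_eq_zero P.measurableSet_Om inter_subset_left
        (f := fun x => th (s⁻¹ • (x - p)) * ⟪s⁻¹ • (x - p), gradient Q x⟫)]
      · congr 1
        ext x
        rw [ThS_grad, inner_smul_right, real_inner_smul_left, real_inner_comm]
        field_simp
      · intro x hx
        have hxb : s⁻¹ • (x - p) ∉ ball (0 : E d) 1 := by
          intro hb
          apply hx.2
          refine ⟨hx.1, ?_⟩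
          rw [mem_ball, dist_zero_right, norm_smul, Real.norm_eq_abs, abs_of_pos (inv_pos.2 hs0),
            inv_mul_eq_div, div_lt_one hs0] at hb
          rw [mem_ball, dist_eq_norm]; exact hb
        rw [th_zero hxb, zero_mul]
    rw [e3, integral_const_mul, heq (ThS p s) (ThS_contDiff p s)
      (HasCompactSupport.of_support_subset_isCompact (isCompact_closedBall p s)
        ((subset_tsupport _).trans (ThS_tsupport p hs0)))
      ((ThS_tsupport p hs0).trans (closedBall_subset_ball (hs.2.trans_lt h2)))]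
    have e4 : s ^ (1 - (d : ℤ)) = (s ^ d)⁻¹ * s := by
      rw [zpow_sub₀ hs0.ne', zpow_one, zpow_natCast]; field_simp
    rw [e4]
    have e5 : ∫ x in P.Om, ThS p s x * g x = ∫ x in P.Om, g x * Th (s⁻¹ • (x - p)) := by
      congr 1; ext x; rw [mul_comm]; rfl
    rw [e5]; ring
  -- IntervalIntegrable
  have hII : IntervalIntegrable (fun s => s ^ (1 - (d : ℤ)) *
      ∫ x in P.Om, g x * Th (s⁻¹ • (x - p))) volume t1 t2 := by
    rw [intervalIntegrable_iff_integrableOn_Icc_of_le h12]
    refine (hprod.integral_prod_left).congr ?_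
    exact (ae_restrict_iff' measurableSet_Icc).2 (Eventually.of_forall fun s hs => hinner s hs)
  refine ⟨hII, ?_⟩
  -- mm in scaled form
  have hmm : ∀ t ∈ Icc t1 t2, mm P Q p t = ∫ z in U, th z * Q (p + t • z) := by
    intro t ht
    have ht0 : 0 < t := h1.trans_le ht.1
    have e1 := mv_scale hC ht0 (ht.2.trans h2.le) (fun x => Q x * th (t⁻¹ • (x - p)))
    have e2 : ∫ z in U, th z * Q (p + t • z) =
        ∫ z in U, (fun x => Q x * th (t⁻¹ • (x - p))) (p + t • z) := by
      congr 1
      ext z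
      simp only [add_sub_cancel_left, inv_smul_smul₀ ht0.ne']
      ring
    rw [e2, e1, mm]
    congr 1
    apply setIntegral_eq_of_subset_of_forall_sdiff_eq_zero P.measurableSet_Om inter_subset_left
    intro x hx
    have hxb : t⁻¹ • (x - p) ∉ ball (0 : E d) 1 := by
      intro hb
      apply hx.2
      refine ⟨hx.1, ?_⟩
      rw [mem_ball, dist_zero_right, norm_smul, Real.norm_eq_abs, abs_of_pos (inv_pos.2 ht0),
        inv_mul_eq_div, div_lt_one ht0] at hb
      rw [mem_ball, dist_eq_norm]; exact hb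
    rw [th_zero hxb, mul_zero]
  have hthQ : ∀ t ∈ Icc t1 t2, IntegrableOn (fun z => th z * Q (p + t • z)) U := by
    intro t ht
    have ht0 : 0 < t := h1.trans_le ht.1
    have hi : IntegrableOn (fun z => Q (p + t • z)) U :=
      mv_integrable hC ht0 (ht.2.trans h2.le) (F := Q) (hQi t (ht.2.trans_lt h2))
    refine Integrable.bdd_mul (c := 1) hi th_cont.aestronglyMeasurable ?_
    exact Eventually.of_forall fun z => by
      rw [Real.norm_eq_abs, abs_of_nonneg (th_nonneg z)]; exact th_le_one z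
  rw [hmm t2 (right_mem_Icc.2 h12), hmm t1 (left_mem_Icc.2 h12),
    ← integral_sub (hthQ t2 (right_mem_Icc.2 h12)) (hthQ t1 (left_mem_Icc.2 h12))]
  -- fundamental theorem
  have hftc : ∀ z ∈ U, th z * Q (p + t2 • z) - th z * Q (p + t1 • z) =
      ∫ s in Icc t1 t2, Φ (s, z) := by
    intro z hz
    have hderiv : ∀ s ∈ uIcc t1 t2, HasDerivAt (fun s => th z * Q (p + s • z)) (Φ (s, z)) s := by
      intro s hs
      rw [uIcc_of_le h12] at hs
      have hmem := hmaps s hs z hz
      have hd : HasFDerivAt Q (fderiv ℝ Q (p + s • z)) (p + s • z) :=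
        ((hQ.differentiableOn one_ne_zero).differentiableAt (hO.mem_nhds hmem)).hasFDerivAt
      have hl : HasDerivAt (fun s : ℝ => p + s • z) z s := by
        simpa using ((hasDerivAt_id s).smul_const z).const_add p
      have h3 := (hd.comp_hasDerivAt s hl).const_mul (th z)
      have h4 : Φ (s, z) = th z * (fderiv ℝ Q (p + s • z)) z := by
        simp only [Φ, gradient]
        rw [real_inner_comm, InnerProductSpace.toDual_symm_apply]
      rw [h4]; exact h3
    have hci : IntervalIntegrable (fun s => Φ (s, z)) volume t1 t2 := by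
      apply ContinuousOn.intervalIntegrable_of_Icc h12
      exact hcont.comp (by fun_prop) fun s hs => ⟨hs, hz⟩
    have h5 := intervalIntegral.integral_eq_sub_of_hasDerivAt hderiv hci
    rw [intervalIntegral.integral_of_le h12, ← integral_Icc_eq_integral_Ioc] at h5
    rw [h5]
  rw [setIntegral_congr_fun hUm hftc]
  rw [integral_integral_swap (f := fun z s => Φ (s, z)) hprod.swap]
  rw [intervalIntegral.integral_of_le h12, ← integral_Icc_eq_integral_Ioc]
  exact setIntegral_congr_fun measurableSet_Icc fun s hs => hinner s hs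

end

end Pool.Agent.Lib_helper58.Robin
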