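import Pool.Agent.Lib_helper13.Robin.W.LA
import Pool.Agent.Lib_helper13.Robin.W.NL
import Pool.Agent.Lib_helper13.Robin.W.PL
import Pool.Agent.Lib_helper13.Robin.W.XB
import Pool.Agent.Lib_helper13.Robin.W.XD
import Pool.Agent.Lib_helper13.Robin.W.XF
import Pool.Agent.Lib_helper13.Robin.W.XM
import Pool.Agent.Lib_helper13.Robin.W.XO

/-!
# Robin project, block XE: expansion at an edge
-/

namespace Pool.Agent.Lib_helper58.Robin

open MeasureTheory Set Metric Filter Topology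
open scoped RealInnerProductSpace ContDiff
open Pool.Agent.Lib_helper13.Robin

noncomputable section

/-- cosine modes -/
def xeMode (om : ℝ) (f : ℝ → ℝ → ℝ) (k : ℕ) (ρ : ℝ) : ℝ :=
  ∫ θ in (0 : ℝ)..om, f ρ θ * Real.cos (k * (Real.pi / om) * θ)

theorem xeMode_le {om : ℝ} (h : 0 < om) {f : ℝ → ℝ → ℝ} {M ρ : ℝ}
    (hf : ∀ θ ∈ Ioo 0 om, |f ρ θ| ≤ M) (k : ℕ) : |xeMode om f k ρ| ≤ om * M := by
  unfold xeMode
  have := intervalIntegral.norm_integral_le_of_norm_le_const_ae (a := 0) (b := om) (C := M)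
    (f := fun θ => f ρ θ * Real.cos (k * (Real.pi / om) * θ)) ?_
  · rw [sub_zero, abs_of_pos h] at this
    exact this.trans_eq (mul_comm _ _)
  · have h1 : ∀ᵐ θ : ℝ, θ ≠ om := by
      simp [ae_iff, measure_singleton]
    filter_upwards [h1] with θ hθ hθ2
    rw [uIoc_of_le h.le] at hθ2
    have h2 := hf θ ⟨hθ2.1, lt_of_le_of_ne hθ2.2 hθ⟩
    rw [Real.norm_eq_abs, abs_mul]
    calc |f ρ θ| * |Real.cos (k * (Real.pi / om) * θ)| ≤ |f ρ θ| * 1 :=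
          mul_le_mul_of_nonneg_left (Real.abs_cos_le_one _) (abs_nonneg _)
      _ ≤ M := by rw [mul_one]; exact h2

/-- the summable comparison series -/
theorem xe_summable {β : ℝ} (hβ : 1 < β) :
    Summable fun k : ℕ => (((((k + 2 : ℕ) : ℝ) * β) - 2) * ((((k + 2 : ℕ) : ℝ) * β) + 2))⁻¹ := by
  set c := min 1 (2 * (β - 1)) with hc
  have hc0 : 0 < c := lt_min one_pos (by linarith)
  have hc1 : c ≤ 1 := min_le_left _ _
  have hc2 : c ≤ 2 * (β - 1) := min_le_right _ _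
  have hs : Summable fun k : ℕ => c⁻¹ * (1 / ((k + 1 : ℕ) : ℝ) ^ 2) := by
    apply Summable.mul_left
    exact (summable_nat_add_iff (f := fun k : ℕ => 1 / (k : ℝ) ^ 2) 1).2
      (Real.summable_one_div_nat_pow.2 one_lt_two)
  refine Summable.of_nonneg_of_le (fun k => ?_) (fun k => ?_) hs
  · have h1 : (2 : ℝ) ≤ ((k + 2 : ℕ) : ℝ) := by push_cast; linarith [Nat.cast_nonneg (α := ℝ) k]
    have h2 : (2 : ℝ) ≤ ((k + 2 : ℕ) : ℝ) * β := by nlinarith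
    apply inv_nonneg.2
    apply mul_nonneg <;> linarith
  · have hk : (0 : ℝ) ≤ k := Nat.cast_nonneg k
    have e1 : c * ((k + 1 : ℕ) : ℝ) ≤ ((k + 2 : ℕ) : ℝ) * β - 2 := by
      push_cast
      nlinarith [mul_nonneg hk (sub_nonneg.2 hc1), mul_nonneg hk (sub_nonneg.2 hβ.le)]
    have e2 : ((k + 1 : ℕ) : ℝ) ≤ ((k + 2 : ℕ) : ℝ) * β + 2 := by
      push_cast
      nlinarith [mul_nonneg hk (sub_nonneg.2 hβ.le)]
    have e3 : (0 : ℝ) < ((k + 1 : ℕ) : ℝ) := by positivity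
    rw [one_div, ← mul_inv]
    apply inv_anti₀ (by positivity)
    calc c * ((k + 1 : ℕ) : ℝ) ^ 2 = (c * ((k + 1 : ℕ) : ℝ)) * ((k + 1 : ℕ) : ℝ) := by ring
      _ ≤ _ := mul_le_mul e1 e2 e3.le ((mul_pos hc0 e3).le.trans e1)

/-- bound for high modes -/
theorem xe_high {r K M μ : ℝ} (hr : 0 < r) (hK : 0 ≤ K) (hM : 0 ≤ M) (hμ : 2 < μ)
    (a a' a'' b : ℝ → ℝ)
    (h1 : ∀ ρ ∈ Ioo 0 r, HasDerivAt a (a' ρ) ρ) (h2 : ∀ ρ ∈ Ioo 0 r, HasDerivAt a' (a'' ρ) ρ)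
    (h3 : ∀ ρ ∈ Ioo 0 r, a'' ρ + a' ρ / ρ - μ ^ 2 * a ρ / ρ ^ 2 = b ρ)
    (hb : ∀ ρ ∈ Ioo 0 r, |b ρ| ≤ K) (ha : ∀ ρ ∈ Ioo 0 r, |a ρ| ≤ M) :
    ∀ ρ ∈ Ioo 0 (r / 4), |a ρ| ≤ (16 / r ^ 2 * (1 / 2 : ℝ) ^ μ * M +
      K * ((μ - 2) * (μ + 2))⁻¹) * ρ ^ 2 := by
  intro ρ hρ
  have key := ode_large (r := r) (K := K) (M := M) (τ := 0) (μ := μ) hr hK (by norm_num)
    (by linarith) a a' a'' b h1 h2 h3 (by intro ρ hρ; rw [Real.rpow_zero, mul_one]; exact hb ρ hρ)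
    ha (r / 2) ⟨by linarith, by linarith⟩ ρ ⟨hρ.1, by linarith [hρ.2]⟩
  have hρ0 := hρ.1
  have e1 : (ρ / (r / 2)) ^ μ ≤ 16 / r ^ 2 * (1 / 2 : ℝ) ^ μ * ρ ^ 2 := by
    have hx0 : 0 < ρ / (r / 2) := by positivity
    have hx1 : ρ / (r / 2) ≤ 1 / 2 := by
      rw [div_le_iff₀ (by linarith)]; linarith [hρ.2]
    have : (ρ / (r / 2)) ^ μ = (ρ / (r / 2)) ^ (2 : ℝ) * (ρ / (r / 2)) ^ (μ - 2) := by
      rw [← Real.rpow_add hx0]; congr 1; ring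
    rw [this, Real.rpow_two]
    have h5 : (ρ / (r / 2)) ^ (μ - 2) ≤ (1 / 2 : ℝ) ^ (μ - 2) :=
      Real.rpow_le_rpow hx0.le hx1 (by linarith)
    have h6 : (1 / 2 : ℝ) ^ (μ - 2) = (1 / 2 : ℝ) ^ μ * 4 := by
      rw [Real.rpow_sub (by norm_num), Real.rpow_two]; norm_num; ring
    calc (ρ / (r / 2)) ^ 2 * (ρ / (r / 2)) ^ (μ - 2)
        ≤ (ρ / (r / 2)) ^ 2 * ((1 / 2 : ℝ) ^ μ * 4) := by
          rw [← h6]; exact mul_le_mul_of_nonneg_left h5 (by positivity)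
      _ = _ := by field_simp; ring
  have e2 : ρ ^ (2 + 0 : ℝ) = ρ ^ 2 := by rw [add_zero, Real.rpow_two]
  rw [e2] at key
  have e3 : (μ - 2 - 0) * (μ + 2 + 0) = (μ - 2) * (μ + 2) := by ring
  rw [e3] at key
  calc |a ρ| ≤ _ := key
    _ ≤ (16 / r ^ 2 * (1 / 2 : ℝ) ^ μ * ρ ^ 2) * M + K / ((μ - 2) * (μ + 2)) * ρ ^ 2 := by
        gcongr
    _ = _ := by rw [div_eq_mul_inv]; ring

/-- the first mode -/
theorem xe_first {om r K M : ℝ} (hom : 0 < om) (homπ : om < Real.pi) (hr : 0 < r) (hK : 0 ≤ K)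
    (hM : 0 ≤ M) :
    ∃ C ≥ 0, ∀ (a a' a'' b : ℝ → ℝ),
    (∀ ρ ∈ Ioo 0 r, HasDerivAt a (a' ρ) ρ) → (∀ ρ ∈ Ioo 0 r, HasDerivAt a' (a'' ρ) ρ) →
    (∀ ρ ∈ Ioo 0 r, a'' ρ + a' ρ / ρ - (Real.pi / om) ^ 2 * a ρ / ρ ^ 2 = b ρ) →
    (∀ ρ ∈ Ioo 0 r, |b ρ| ≤ K) →
    (Real.pi / om = 2 → ∀ ρ ∈ Ioo 0 r, |b ρ| ≤ K * ρ ^ (3 / 2 : ℝ)) →
    (∀ ρ ∈ Ioo 0 r, |a ρ| ≤ M) →
    ∃ A, |A| ≤ C ∧ (2 ≤ Real.pi / om → A = 0) ∧
      ∀ ρ ∈ Ioo 0 (r / 4), |a ρ - A * ρ ^ (Real.pi / om)| ≤ C * ρ ^ 2 := by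
  set β := Real.pi / om with hβ
  have hβ1 : 1 < β := by rw [hβ, one_lt_div hom]; exact homπ
  rcases lt_trichotomy β 2 with hlt | heq | hgt
  · obtain ⟨C, hC⟩ := ode_small (r := r) (K := K) (M := M) (τ := 0) (μ := β) hr hK
      (by linarith) (by linarith)
    refine ⟨max C 0, le_max_right _ _, ?_⟩
    intro a a' a'' b h1 h2 h3 hb _ ha
    obtain ⟨A, hA, hA2⟩ := hC a a' a'' b h1 h2 h3
      (by intro ρ hρ; rw [Real.rpow_zero, mul_one]; exact hb ρ hρ) ha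
    refine ⟨A, hA.trans (le_max_left _ _), fun h => absurd h (not_le.2 hlt), ?_⟩
    intro ρ hρ
    have := hA2 ρ ⟨hρ.1, by linarith [hρ.2]⟩
    rw [add_zero, Real.rpow_two] at this
    exact this.trans (mul_le_mul_of_nonneg_right (le_max_left _ _) (sq_nonneg _))
  · obtain ⟨C, hC⟩ := ode_small (r := r) (K := K) (M := M) (τ := 3 / 2) (μ := β) hr hK
      (by linarith) (by linarith)
    refine ⟨|C| * (1 + r ^ (3 / 2 : ℝ)), by positivity, ?_⟩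
    intro a a' a'' b h1 h2 h3 _ hb ha
    obtain ⟨A, hA, hA2⟩ := hC a a' a'' b h1 h2 h3 (hb heq) ha
    refine ⟨0, by rw [abs_zero]; positivity, fun _ => rfl, ?_⟩
    intro ρ hρ
    have hρ0 := hρ.1
    have h5 := hA2 ρ ⟨hρ.1, by linarith [hρ.2]⟩
    rw [heq, Real.rpow_two] at h5
    have h6 : ρ ^ (2 + 3 / 2 : ℝ) = ρ ^ 2 * ρ ^ (3 / 2 : ℝ) := by
      rw [Real.rpow_add hρ0, Real.rpow_two]
    rw [h6] at h5
    have h7 : ρ ^ (3 / 2 : ℝ) ≤ r ^ (3 / 2 : ℝ) :=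
      Real.rpow_le_rpow hρ0.le (by linarith [hρ.2]) (by norm_num)
    rw [zero_mul, sub_zero]
    have h8 : |a ρ| ≤ |a ρ - A * ρ ^ 2| + |A| * ρ ^ 2 := by
      have := abs_add_le (a ρ - A * ρ ^ 2) (A * ρ ^ 2)
      rw [sub_add_cancel, abs_mul, abs_of_nonneg (sq_nonneg ρ)] at this
      exact this
    have hAC : |A| ≤ |C| := hA.trans (le_abs_self C)
    have hCC : C ≤ |C| := le_abs_self C
    calc |a ρ| ≤ C * (ρ ^ 2 * ρ ^ (3 / 2 : ℝ)) + |A| * ρ ^ 2 := by linarith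
      _ ≤ |C| * (ρ ^ 2 * r ^ (3 / 2 : ℝ)) + |C| * ρ ^ 2 := by gcongr
      _ = _ := by ring
  · refine ⟨16 / r ^ 2 * (1 / 2 : ℝ) ^ β * M + K * ((β - 2) * (β + 2))⁻¹, ?_, ?_⟩
    · have : 0 ≤ ((β - 2) * (β + 2))⁻¹ := inv_nonneg.2 (mul_nonneg (by linarith) (by linarith))
      positivity
    · intro a a' a'' b h1 h2 h3 hb _ ha
      refine ⟨0, ?_, fun _ => rfl, ?_⟩
      · rw [abs_zero]
        have : 0 ≤ ((β - 2) * (β + 2))⁻¹ := inv_nonneg.2 (mul_nonneg (by linarith) (by linarith))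
        positivity
      · intro ρ hρ
        rw [zero_mul, sub_zero]
        exact xe_high hr hK hM hgt a a' a'' b h1 h2 h3 hb ha ρ hρ

/-- abstract form of the expansion -/
theorem xe_core {om r K M : ℝ} (hom : 0 < om) (homπ : om < Real.pi) (hr : 0 < r) (hK : 0 ≤ K)
    (hM : 0 ≤ M) :
    ∃ C ≥ 0, ∀ f : ℝ → ℝ → ℝ,
      (∀ ρ ∈ Ioo 0 r, ∃ L, ∀ x ∈ Ioo 0 om, ∀ y ∈ Ioo 0 om, |f ρ x - f ρ y| ≤ L * |x - y|) →
      (∀ ρ ∈ Ioo 0 r, ∀ θ ∈ Ioo 0 om, |f ρ θ| ≤ M) →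
      (∀ k : ℕ, ∃ a' a'' b : ℝ → ℝ, ∀ ρ ∈ Ioo 0 r, HasDerivAt (xeMode om f k) (a' ρ) ρ ∧
        HasDerivAt a' (a'' ρ) ρ ∧
        a'' ρ + a' ρ / ρ - (k * (Real.pi / om)) ^ 2 * xeMode om f k ρ / ρ ^ 2 = b ρ ∧
        |b ρ| ≤ K ∧ (k = 1 → Real.pi / om = 2 → |b ρ| ≤ K * ρ ^ (3 / 2 : ℝ))) →
      ∃ w0 c : ℝ, |w0| ≤ C ∧ |c| ≤ C ∧ (2 ≤ Real.pi / om → c = 0) ∧
        ∀ ρ ∈ Ioo 0 (r / 4), ∀ θ ∈ Ioo 0 om,
          |f ρ θ - w0 - c * ρ ^ (Real.pi / om) * Real.cos (Real.pi / om * θ)| ≤ C * ρ ^ 2 := by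
  set β := Real.pi / om with hβ
  have hβ1 : 1 < β := by rw [hβ, one_lt_div hom]; exact homπ
  obtain ⟨C1, hC10, hC1⟩ := xe_first (om := om) (r := r) (K := K) (M := om * M) hom homπ hr hK
    (by positivity)
  -- bounds of the high modes
  set D : ℕ → ℝ := fun k => 16 / r ^ 2 * (om * M) * (1 / 2 : ℝ) ^ k +
    K * (((((k + 2 : ℕ) : ℝ) * β) - 2) * ((((k + 2 : ℕ) : ℝ) * β) + 2))⁻¹ with hD
  have hDs : Summable D := by
    apply Summable.add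
    · apply Summable.mul_left
      exact summable_geometric_two
    · apply Summable.mul_left
      exact xe_summable hβ1
  have hD0 : ∀ k, 0 ≤ D k := by
    intro k
    have h1 : (2 : ℝ) ≤ ((k + 2 : ℕ) : ℝ) := by push_cast; linarith [Nat.cast_nonneg (α := ℝ) k]
    have h2 : (2 : ℝ) ≤ ((k + 2 : ℕ) : ℝ) * β := by nlinarith
    have h3 : 0 ≤ (((((k + 2 : ℕ) : ℝ) * β) - 2) * ((((k + 2 : ℕ) : ℝ) * β) + 2))⁻¹ :=
      inv_nonneg.2 (mul_nonneg (by linarith) (by linarith))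
    simp only [hD]
    positivity
  have hS0 : 0 ≤ ∑' k, D k := tsum_nonneg hD0
  set S := ∑' k, D k with hS
  refine ⟨om⁻¹ * (om * M + K * r ^ 2) + 2 * om⁻¹ * C1 + om⁻¹ * K + 2 * om⁻¹ * (C1 + S),
    by positivity, ?_⟩
  intro f hL hMf hode
  have hmode : ∀ k, ∀ ρ ∈ Ioo 0 r, |xeMode om f k ρ| ≤ om * M :=
    fun k ρ hρ => xeMode_le hom (hMf ρ hρ) k
  -- mode 0
  obtain ⟨A0, hA0⟩ : ∃ A, ∀ ρ ∈ Ioo 0 r, |xeMode om f 0 ρ - A| ≤ K * ρ ^ 2 := by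
    obtain ⟨a', a'', b, h⟩ := hode 0
    refine ode_zero (M := om * M) hr hK _ a' a'' b (fun ρ hρ => (h ρ hρ).1)
      (fun ρ hρ => (h ρ hρ).2.1) (fun ρ hρ => ?_) (fun ρ hρ => (h ρ hρ).2.2.2.1) (hmode 0)
    have := (h ρ hρ).2.2.1
    simpa using this
  have hA0b : |A0| ≤ om * M + K * r ^ 2 := by
    have hr2 : r / 2 ∈ Ioo 0 r := ⟨by linarith, by linarith⟩
    have h1 := hA0 _ hr2
    have h2 := hmode 0 _ hr2
    have h3 : |A0| ≤ |xeMode om f 0 (r / 2)| + |xeMode om f 0 (r / 2) - A0| := by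
      have := abs_sub (xeMode om f 0 (r / 2)) (xeMode om f 0 (r / 2) - A0)
      rw [sub_sub_cancel] at this
      exact this
    have h4 : K * (r / 2) ^ 2 ≤ K * r ^ 2 := by
      apply mul_le_mul_of_nonneg_left _ hK
      nlinarith
    linarith
  -- mode 1
  obtain ⟨A1, hA1b, hA1z, hA1⟩ : ∃ A, |A| ≤ C1 ∧ (2 ≤ β → A = 0) ∧
      ∀ ρ ∈ Ioo 0 (r / 4), |xeMode om f 1 ρ - A * ρ ^ β| ≤ C1 * ρ ^ 2 := by
    obtain ⟨a', a'', b, h⟩ := hode 1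
    refine hC1 _ a' a'' b (fun ρ hρ => (h ρ hρ).1) (fun ρ hρ => (h ρ hρ).2.1)
      (fun ρ hρ => ?_) (fun ρ hρ => (h ρ hρ).2.2.2.1)
      (fun h2 ρ hρ => (h ρ hρ).2.2.2.2 rfl h2) (hmode 1)
    have := (h ρ hρ).2.2.1
    simpa using this
  -- high modes
  have hhigh : ∀ k, ∀ ρ ∈ Ioo 0 (r / 4), |xeMode om f (k + 2) ρ| ≤ D k * ρ ^ 2 := by
    intro k ρ hρ
    obtain ⟨a', a'', b, h⟩ := hode (k + 2)
    have h1 : (2 : ℝ) ≤ ((k + 2 : ℕ) : ℝ) := by push_cast; linarith [Nat.cast_nonneg (α := ℝ) k]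
    have h2 : (2 : ℝ) < ((k + 2 : ℕ) : ℝ) * β := by nlinarith
    have h3 := xe_high hr hK (M := om * M) (by positivity) h2 _ a' a'' b
      (fun ρ hρ => (h ρ hρ).1) (fun ρ hρ => (h ρ hρ).2.1) (fun ρ hρ => (h ρ hρ).2.2.1)
      (fun ρ hρ => (h ρ hρ).2.2.2.1) (hmode (k + 2)) ρ hρ
    refine h3.trans (mul_le_mul_of_nonneg_right ?_ (sq_nonneg _))
    simp only [hD]
    have h4 : (1 / 2 : ℝ) ^ (((k + 2 : ℕ) : ℝ) * β) ≤ (1 / 2 : ℝ) ^ k := by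
      rw [← Real.rpow_natCast]
      apply Real.rpow_le_rpow_of_exponent_ge (by norm_num) (by norm_num)
      push_cast at h1 h2 ⊢
      nlinarith [Nat.cast_nonneg (α := ℝ) k]
    have h5 : 16 / r ^ 2 * (1 / 2 : ℝ) ^ (((k + 2 : ℕ) : ℝ) * β) * (om * M) ≤
        16 / r ^ 2 * (om * M) * (1 / 2 : ℝ) ^ k := by
      rw [mul_right_comm]
      exact mul_le_mul_of_nonneg_left h4 (by positivity)
    linarith
  refine ⟨om⁻¹ * A0, 2 * om⁻¹ * A1, ?_, ?_, ?_, ?_⟩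
  · rw [abs_mul, abs_of_pos (inv_pos.2 hom)]
    have h1 : om⁻¹ * |A0| ≤ om⁻¹ * (om * M + K * r ^ 2) :=
      mul_le_mul_of_nonneg_left hA0b (by positivity)
    have h2 : 0 ≤ 2 * om⁻¹ * C1 + om⁻¹ * K + 2 * om⁻¹ * (C1 + S) := by positivity
    linarith
  · rw [abs_mul, abs_of_pos (by positivity : (0 : ℝ) < 2 * om⁻¹)]
    have h1 : 2 * om⁻¹ * |A1| ≤ 2 * om⁻¹ * C1 :=
      mul_le_mul_of_nonneg_left hA1b (by positivity)
    have h2 : 0 ≤ om⁻¹ * (om * M + K * r ^ 2) + om⁻¹ * K + 2 * om⁻¹ * (C1 + S) := by positivity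
    linarith
  · intro h; rw [hA1z h, mul_zero]
  · intro ρ hρ θ hθ
    have hρr : ρ ∈ Ioo 0 r := ⟨hρ.1, by linarith [hρ.2]⟩
    obtain ⟨L, hL⟩ := hL ρ hρr
    have hsum2 : Summable fun k : ℕ => |xeMode om f (k + 2) ρ| :=
      Summable.of_nonneg_of_le (fun k => abs_nonneg _) (fun k => hhigh k ρ hρ)
        (hDs.mul_right (ρ ^ 2))
    have hsum : Summable fun k : ℕ => |xeMode om f k ρ| :=
      (summable_nat_add_iff 2).1 hsum2
    have hser := cos_series hom (f ρ) L hL hsum θ hθ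
    have e0 : (∫ θ in (0 : ℝ)..om, f ρ θ) = xeMode om f 0 ρ := by
      unfold xeMode; simp
    rw [e0] at hser
    set F : ℕ → ℝ := fun k => xeMode om f (k + 1) ρ * Real.cos (((k + 1 : ℕ) : ℝ) * β * θ) with hFd
    have e1 : (∑' k : ℕ, (∫ θ in (0 : ℝ)..om, f ρ θ *
        Real.cos ((k + 1 : ℕ) * (Real.pi / om) * θ)) *
        Real.cos ((k + 1 : ℕ) * (Real.pi / om) * θ)) = ∑' k, F k := rfl
    rw [e1] at hser
    have hFb : ∀ k, |F (k + 1)| ≤ D k * ρ ^ 2 := by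
      intro k
      simp only [hFd, abs_mul]
      calc |xeMode om f (k + 1 + 1) ρ| * |Real.cos (((k + 1 + 1 : ℕ) : ℝ) * β * θ)|
          ≤ |xeMode om f (k + 1 + 1) ρ| * 1 :=
            mul_le_mul_of_nonneg_left (Real.abs_cos_le_one _) (abs_nonneg _)
        _ ≤ D k * ρ ^ 2 := by rw [mul_one]; exact hhigh k ρ hρ
    have hFs1 : Summable fun k => |F (k + 1)| :=
      Summable.of_nonneg_of_le (fun k => abs_nonneg _) hFb (hDs.mul_right (ρ ^ 2))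
    have hFs : Summable F := (summable_nat_add_iff 1).1 hFs1.of_abs
    have e2 : ∑' k, F k = F 0 + ∑' k, F (k + 1) := hFs.tsum_eq_zero_add
    have e3 : |∑' k, F (k + 1)| ≤ S * ρ ^ 2 := by
      have h1 : |∑' k, F (k + 1)| ≤ ∑' k, |F (k + 1)| := by
        have := norm_tsum_le_tsum_norm (f := fun k => F (k + 1)) hFs1
        simpa using this
      have h2 : ∑' k, |F (k + 1)| ≤ ∑' k, D k * ρ ^ 2 :=
        hFs1.tsum_le_tsum hFb (hDs.mul_right (ρ ^ 2))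
      rw [tsum_mul_right] at h2
      exact h1.trans h2
    rw [e2] at hser
    have e4 : F 0 = xeMode om f 1 ρ * Real.cos (β * θ) := by
      simp [hFd]
    rw [e4] at hser
    have e5 : f ρ θ - om⁻¹ * A0 - 2 * om⁻¹ * A1 * ρ ^ β * Real.cos (β * θ) =
        om⁻¹ * (xeMode om f 0 ρ - A0) + 2 * om⁻¹ * ((xeMode om f 1 ρ - A1 * ρ ^ β) *
          Real.cos (β * θ) + ∑' k, F (k + 1)) := by
      rw [hser]; ring
    rw [e5]
    have h1 : |om⁻¹ * (xeMode om f 0 ρ - A0)| ≤ om⁻¹ * (K * ρ ^ 2) := by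
      rw [abs_mul, abs_of_pos (inv_pos.2 hom)]
      exact mul_le_mul_of_nonneg_left (hA0 ρ hρr) (by positivity)
    have h2 : |(xeMode om f 1 ρ - A1 * ρ ^ β) * Real.cos (β * θ)| ≤ C1 * ρ ^ 2 := by
      rw [abs_mul]
      calc _ ≤ |xeMode om f 1 ρ - A1 * ρ ^ β| * 1 :=
            mul_le_mul_of_nonneg_left (Real.abs_cos_le_one _) (abs_nonneg _)
        _ ≤ _ := by rw [mul_one]; exact hA1 ρ hρ
    have h3 : |2 * om⁻¹ * ((xeMode om f 1 ρ - A1 * ρ ^ β) *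
          Real.cos (β * θ) + ∑' k, F (k + 1))| ≤ 2 * om⁻¹ * (C1 * ρ ^ 2 + S * ρ ^ 2) := by
      rw [abs_mul, abs_of_pos (by positivity : (0 : ℝ) < 2 * om⁻¹)]
      exact mul_le_mul_of_nonneg_left ((abs_add_le _ _).trans (add_le_add h2 e3)) (by positivity)
    have h4 : 0 ≤ (om⁻¹ * (om * M + K * r ^ 2) + 2 * om⁻¹ * C1) * ρ ^ 2 := by positivity
    calc _ ≤ _ := abs_add_le _ _
      _ ≤ om⁻¹ * (K * ρ ^ 2) + 2 * om⁻¹ * (C1 * ρ ^ 2 + S * ρ ^ 2) := add_le_add h1 h3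
      _ ≤ _ := by nlinarith


section geo
variable {d m : ℕ} (P : PD d m)

theorem xe_norm_yy {e1 e2 : E d} (n1 : ‖e1‖ = 1) (n2 : ‖e2‖ = 1) (orth : ⟪e1, e2⟫ = 0) {ρ : ℝ}
    (hρ : 0 ≤ ρ) (θ : ℝ) : ‖yy e1 e2 ρ θ‖ = ρ := by
  have h1 : ‖Real.cos θ • e1 + Real.sin θ • e2‖ ^ 2 = 1 := by
    rw [norm_add_sq_real, norm_smul, norm_smul, n1, n2, inner_smul_left, inner_smul_right, orth]
    simp
  have h2 : ‖Real.cos θ • e1 + Real.sin θ • e2‖ = 1 := by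
    have h3 := norm_nonneg (Real.cos θ • e1 + Real.sin θ • e2)
    nlinarith
  rw [yy, norm_smul, h2, mul_one, Real.norm_eq_abs, abs_of_nonneg hρ]

variable {P}

theorem xe_rk {p : E d} {i j : Fin m} {e1 e2 : E d} {om : ℝ} (hF : Frame P p i j e1 e2 om) :
    P.rk p = 2 := by
  have hli : LinearIndependent ℝ ![e1, e2] := by
    have ho : Orthonormal ℝ ![e1, e2] := by
      constructor
      · intro k; fin_cases k
        · exact hF.n1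
        · exact hF.n2
      · intro k l hkl
        fin_cases k <;> fin_cases l
        · exact absurd rfl hkl
        · exact hF.orth
        · show ⟪e2, e1⟫ = 0
          rw [real_inner_comm]; exact hF.orth
        · exact absurd rfl hkl
    exact ho.linearIndependent
  have h1 := finrank_span_eq_card hli
  unfold PD.rk
  rw [Frame.N_eq hF]
  have h2 : Set.range ![e1, e2] = {e1, e2} := by
    simp only [Matrix.range_cons, Matrix.range_empty, union_empty, singleton_union]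
  rw [h2] at h1
  simpa using h1

theorem xe_yy_mem {p : E d} {i j : Fin m} {e1 e2 : E d} {om : ℝ}
    (hF : Frame P p i j e1 e2 om) (ρ θ : ℝ) : yy e1 e2 ρ θ ∈ P.N p := by
  rw [Frame.N_eq hF]
  apply Submodule.smul_mem
  exact Submodule.add_mem _ (Submodule.smul_mem _ _ (Submodule.subset_span (by simp)))
    (Submodule.smul_mem _ _ (Submodule.subset_span (by simp)))

theorem xe_rho {p : E d} {i j : Fin m} {e1 e2 : E d} {om : ℝ}
    (hF : Frame P p i j e1 e2 om) {s : E d} (hs : s ∈ (P.N p)ᗮ) {ρ : ℝ} (hρ : 0 ≤ ρ) (θ : ℝ) :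
    P.rho p (p + s + yy e1 e2 ρ θ) = ρ := by
  unfold PD.rho
  have h1 : p + s + yy e1 e2 ρ θ - p = s + yy e1 e2 ρ θ := by abel
  rw [h1, map_add, (Submodule.starProjection_apply_eq_zero_iff _).2 hs, zero_add,
    Submodule.starProjection_eq_self_iff.2 (xe_yy_mem hF ρ θ)]
  exact xe_norm_yy hF.n1 hF.n2 hF.orth hρ θ

theorem xe_ball {p : E d} {i j : Fin m} {e1 e2 : E d} {om R : ℝ}
    (hF : Frame P p i j e1 e2 om) {s : E d} {ρ : ℝ} (hρ : 0 ≤ ρ)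
    (hR : ‖s‖ + ρ < R) (θ : ℝ) : p + s + yy e1 e2 ρ θ ∈ ball p R := by
  rw [mem_ball, dist_eq_norm]
  have h1 : p + s + yy e1 e2 ρ θ - p = s + yy e1 e2 ρ θ := by abel
  rw [h1]
  calc ‖s + yy e1 e2 ρ θ‖ ≤ ‖s‖ + ‖yy e1 e2 ρ θ‖ := norm_add_le _ _
    _ = ‖s‖ + ρ := by rw [xe_norm_yy hF.n1 hF.n2 hF.orth hρ]
    _ < R := hR

theorem xe_mem {p : E d} {i j : Fin m} {e1 e2 : E d} {om R : ℝ}
    (hF : Frame P p i j e1 e2 om) (hC : P.Con p R) {s : E d} (hs : s ∈ (P.N p)ᗮ) {ρ : ℝ}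
    (hρ : 0 < ρ) (hR : ‖s‖ + ρ < R) {θ : ℝ} (hθ : θ ∈ Ioo 0 om) :
    p + s + yy e1 e2 ρ θ ∈ P.Om ∩ ball p R := by
  have hb := xe_ball hF hρ.le hR θ
  refine ⟨?_, hb⟩
  rw [hC.mem_Om_iff hb]
  intro k hk
  have h1 : p + s + yy e1 e2 ρ θ - p = s + yy e1 e2 ρ θ := by abel
  rw [h1, inner_add_right, P.mem_N_orth.1 hs k hk, zero_add]
  have h21 : ⟪e2, e1⟫ = 0 := by rw [real_inner_comm]; exact hF.orth
  have h11 : ⟪e1, e1⟫ = 1 := by rw [real_inner_self_eq_norm_sq, hF.n1]; norm_num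
  have h22 : ⟪e2, e2⟫ = 1 := by rw [real_inner_self_eq_norm_sq, hF.n2]; norm_num
  rw [hF.hA] at hk
  rcases hk with rfl | hk
  · rw [hF.νi, yy, inner_smul_right, inner_neg_left, inner_add_right, inner_smul_right,
      inner_smul_right, h21, h22]
    have : 0 < Real.sin θ := Real.sin_pos_of_pos_of_lt_pi hθ.1 (hθ.2.trans hF.omπ)
    nlinarith
  · rw [mem_singleton_iff] at hk
    subst hk
    rw [hF.νj, yy, inner_smul_right, inner_add_left, inner_smul_left, inner_smul_left,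
      inner_add_right, inner_add_right, inner_smul_right, inner_smul_right, inner_smul_right,
      inner_smul_right, h21, h22, h11, hF.orth]
    have h3 : 0 < Real.sin (om - θ) :=
      Real.sin_pos_of_pos_of_lt_pi (by linarith [hθ.2]) (by linarith [hθ.1, hF.omπ])
    rw [Real.sin_sub] at h3
    simp only [conj_trivial, mul_one, mul_zero, add_zero, zero_add]
    nlinarith

/-- tangential Laplacian -/
def xeLT {p : E d} {κ : Type} [Fintype κ] (b : OrthonormalBasis κ ℝ (P.N p)ᗮ) (w : E d → ℝ) :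
    E d → ℝ := fun x => ∑ k, pd (b k : E d) (pd (b k : E d) w) x

theorem xe_zero {V : Set (E d)} (hV : IsOpen V) {w : E d → ℝ} (h : NH P V w) :
    NH P V (fun _ => (0 : ℝ)) := by
  have := h.const_mul hV 0
  simpa using this

/-- tangential Laplacian of a Neumann-harmonic function -/
theorem xe_LT {p : E d} {R : ℝ} (hC : P.Con p R) (hr : P.rk p ≤ 2) {κ : Type} [Fintype κ]
    (b : OrthonormalBasis κ ℝ (P.N p)ᗮ) {w : E d → ℝ} (h : NH P (ball p R) w) :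
    ∃ r > 0, r ≤ R ∧ (∃ C ≥ 0, ∀ x ∈ P.Om ∩ ball p r, |w x| ≤ C) ∧
      NH P (ball p r) (xeLT b w) := by
  classical
  obtain ⟨r1, hr1, hr1R, ⟨C, hCb⟩, hD⟩ := nh_deriv P hC hr h
  have hC1 : P.Con p r1 := hC.mono hr1 hr1R
  have key : ∀ s : Finset κ, ∃ r > 0, r ≤ r1 ∧
      NH P (ball p r) (fun x => ∑ k ∈ s, pd (b k : E d) (pd (b k : E d) w) x) := by
    intro s
    induction s using Finset.induction_on with
    | empty =>
      refine ⟨r1, hr1, le_rfl, ?_⟩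
      simp only [Finset.sum_empty]
      exact xe_zero isOpen_ball (h.mono (ball_subset_ball hr1R))
    | insert a s ha ih =>
      obtain ⟨r2, hr2, hr21, hN2⟩ := ih
      obtain ⟨r3, hr3, hr31, _, hD3⟩ := nh_deriv P hC1 hr (hD (b a : E d) (b a).2)
      refine ⟨min r2 r3, lt_min hr2 hr3, (min_le_left _ _).trans hr21, ?_⟩
      have h1 := (hD3 (b a : E d) (b a).2).mono (ball_subset_ball (min_le_right r2 r3))
      have h2 := hN2.mono (ball_subset_ball (min_le_left r2 r3))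
      have h3 := NH.add isOpen_ball h1 h2
      simpa only [Finset.sum_insert ha] using h3
  obtain ⟨r, hr0, hrr, hN⟩ := key Finset.univ
  refine ⟨r, hr0, hrr.trans hr1R, ⟨max C 0, le_max_right _ _, fun x hx => ?_⟩, hN⟩
  exact (hCb x ⟨hx.1, ball_subset_ball hrr hx.2⟩).trans (le_max_left _ _)

theorem xe_eq {p : E d} {i j : Fin m} {e1 e2 : E d} {om R : ℝ} (hF : Frame P p i j e1 e2 om)
    {κ : Type} [Fintype κ] (b : OrthonormalBasis κ ℝ (P.N p)ᗮ) {w : E d → ℝ}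
    (h : NH P (ball p R) w) : ∀ x ∈ P.Om ∩ ball p R,
      pd e1 (pd e1 w) x + pd e2 (pd e2 w) x = - xeLT b w x := by
  intro x hx
  have hO : IsOpen (P.Om ∩ ball p R) := P.isOpen_Om.inter isOpen_ball
  have h1 : ContDiffAt ℝ 2 w x :=
    ((h.sm.contDiffAt (hO.mem_nhds hx))).of_le (by norm_cast)
  have h2 := lap_frame P hF b h1
  rw [h.harm x hx] at h2
  unfold xeLT
  linarith

theorem xe_lip {p : E d} {i j : Fin m} {e1 e2 : E d} {om R : ℝ} {w : E d → ℝ}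
    (hF : Frame P p i j e1 e2 om) (hC : P.Con p R) (h : NH P (ball p R) w)
    {s : E d} (hs : s ∈ (P.N p)ᗮ) {ρ : ℝ} (hρ : 0 < ρ) (hR : ‖s‖ + ρ < R) :
    ∃ L, ∀ x ∈ Ioo 0 om, ∀ y ∈ Ioo 0 om,
      |w (p + s + yy e1 e2 ρ x) - w (p + s + yy e1 e2 ρ y)| ≤ L * |x - y| := by
  set K : Set (E d) := (fun θ => p + s + yy e1 e2 ρ θ) '' Icc 0 om with hK
  have hcont : Continuous fun θ => p + s + yy e1 e2 ρ θ := by unfold yy; fun_prop
  have hKc : IsCompact K := isCompact_Icc.image hcont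
  have hKs : K ⊆ ball p R := by
    rintro _ ⟨θ, _, rfl⟩; exact xe_ball hF hρ.le hR θ
  have hK0 : ∀ x ∈ K, P.rho p x ≠ 0 := by
    rintro _ ⟨θ, _, rfl⟩
    simp only []
    rw [xe_rho hF hs hρ.le]; exact hρ.ne'
  obtain ⟨C, hCb⟩ := nh_bounds P hC (xe_rk hF) h hKc hKs hK0
  have hO : IsOpen (P.Om ∩ ball p R) := P.isOpen_Om.inter isOpen_ball
  refine ⟨C * ρ, fun x hx y hy => ?_⟩
  have hder : ∀ θ ∈ Ioo 0 om, HasDerivWithinAt (fun θ => w (p + s + yy e1 e2 ρ θ))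
      (fderiv ℝ w (p + s + yy e1 e2 ρ θ) (ρ • ((-Real.sin θ) • e1 + Real.cos θ • e2)))
      (Ioo 0 om) θ := by
    intro θ hθ
    have hmem := xe_mem hF hC hs hρ hR hθ
    have h1 : HasFDerivAt w (fderiv ℝ w (p + s + yy e1 e2 ρ θ)) (p + s + yy e1 e2 ρ θ) :=
      ((h.sm.contDiffAt (hO.mem_nhds hmem)).differentiableAt (by simp)).hasFDerivAt
    have h2 : HasDerivAt (fun θ => p + s + yy e1 e2 ρ θ)
        (ρ • ((-Real.sin θ) • e1 + Real.cos θ • e2)) θ := by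
      unfold yy
      exact ((((Real.hasDerivAt_cos θ).smul_const e1).add
        ((Real.hasDerivAt_sin θ).smul_const e2)).const_smul ρ).const_add (p + s)
    exact (h1.comp_hasDerivAt θ h2).hasDerivWithinAt
  have hbd : ∀ θ ∈ Ioo 0 om, ‖fderiv ℝ w (p + s + yy e1 e2 ρ θ)
      (ρ • ((-Real.sin θ) • e1 + Real.cos θ • e2))‖ ≤ C * ρ := by
    intro θ hθ
    have hmem := xe_mem hF hC hs hρ hR hθ
    have h1 := (hCb (p + s + yy e1 e2 ρ θ) ⟨hmem.1, ⟨θ, ⟨hθ.1.le, hθ.2.le⟩, rfl⟩⟩).2.1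
    have h2 : ‖fderiv ℝ w (p + s + yy e1 e2 ρ θ)‖ ≤ C := by
      have : ‖gradient w (p + s + yy e1 e2 ρ θ)‖ = ‖fderiv ℝ w (p + s + yy e1 e2 ρ θ)‖ := by
        unfold gradient; simp
      rw [← this]; exact h1
    have h3 : ‖ρ • ((-Real.sin θ) • e1 + Real.cos θ • e2)‖ = ρ := by
      have := xe_norm_yy hF.n1 hF.n2 hF.orth hρ.le (θ + Real.pi / 2)
      rw [yy, Real.cos_add_pi_div_two, Real.sin_add_pi_div_two] at this
      exact this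
    calc _ ≤ ‖fderiv ℝ w (p + s + yy e1 e2 ρ θ)‖ * ‖ρ • ((-Real.sin θ) • e1 + Real.cos θ • e2)‖ :=
          ContinuousLinearMap.le_opNorm _ _
      _ ≤ C * ρ := by rw [h3]; exact mul_le_mul_of_nonneg_right h2 hρ.le
  have := Convex.norm_image_sub_le_of_norm_hasDerivWithin_le hder hbd (convex_Ioo 0 om) hy hx
  simpa [Real.norm_eq_abs] using this

end geo

/-- **XE.** expansion at an edge -/
theorem expansion {d m : ℕ} (P : PD d m) {p : E d} {i j : Fin m} {e1 e2 : E d} {om R : ℝ}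
    {w : E d → ℝ}
    (hF : Frame P p i j e1 e2 om) (hC : P.Con p R) (h : NH P (ball p R) w) :
    ∃ r > 0, r < R ∧ ∃ C ≥ 0, ∀ s ∈ (P.N p)ᗮ, ‖s‖ < r → ∃ w0 c : ℝ, |w0| ≤ C ∧ |c| ≤ C ∧
      (2 ≤ Real.pi / om → c = 0) ∧ ∀ ρ ∈ Ioo 0 r, ∀ θ ∈ Ioo 0 om,
        |w (p + s + yy e1 e2 ρ θ) - w0 - c * ρ ^ (Real.pi / om) *
          Real.cos (Real.pi / om * θ)| ≤ C * ρ ^ 2 := by
  have hrk : P.rk p ≤ 2 := (xe_rk hF).le
  have hom := hF.om0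
  let b := stdOrthonormalBasis ℝ (P.N p)ᗮ
  obtain ⟨r1, hr1, hr1R, ⟨Mw, hMw0, hMw⟩, hg⟩ := xe_LT hC hrk b h
  have hC1 := hC.mono hr1 hr1R
  set g := xeLT b w with hgdef
  obtain ⟨r2, hr2, hr21, ⟨Mg, hMg0, hMg⟩, hg2⟩ := xe_LT hC1 hrk b hg
  have hC2 := hC1.mono hr2 hr21
  set g2 := xeLT b g with hg2def
  obtain ⟨r3, hr3, hr32, ⟨Mg2, hMg20, hMg2⟩, _⟩ := xe_LT hC2 hrk b hg2
  have hC3 := hC2.mono hr3 hr32
  have hr31 : r3 ≤ r1 := hr32.trans hr21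
  have hwN : NH P (ball p r3) w := h.mono (ball_subset_ball (hr31.trans hr1R))
  have hgN : NH P (ball p r3) g := hg.mono (ball_subset_ball hr31)
  have hweq := xe_eq hF b hwN
  have hgeq := xe_eq hF b hgN
  rw [← hgdef] at hweq
  rw [← hg2def] at hgeq
  set r := r3 / 4 with hrdef
  have hr : 0 < r := by positivity
  set K2 := om * Mg2 * (2 * r) ^ (1 / 2 : ℝ) with hK2
  have hK20 : 0 ≤ K2 := by positivity
  set K := om * Mg + (om * Mg * (r ^ (1 / 2 : ℝ) / r ^ 2) + K2 / (7 / 4)) with hKdef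
  have hK0 : 0 ≤ K := by positivity
  obtain ⟨C, hC0, hcore⟩ := xe_core (om := om) (r := r) (K := K) (M := Mw) hom hF.omπ hr hK0 hMw0
  refine ⟨r / 4, by positivity, by linarith, C, hC0, ?_⟩
  intro s hs hsr
  have hsr' : ‖s‖ < r := by linarith
  have hsR3 : ‖s‖ < r3 := by linarith
  -- membership
  have hmem : ∀ ρ ∈ Ioo 0 (2 * r), ∀ θ ∈ Ioo 0 om, p + s + yy e1 e2 ρ θ ∈ P.Om ∩ ball p r3 :=
    fun ρ hρ θ hθ => xe_mem hF hC3 hs hρ.1 (by linarith [hρ.2]) hθ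
  have hgb : ∀ ρ ∈ Ioo 0 (2 * r), ∀ k, |xeMode om (fun ρ θ => g (p + s + yy e1 e2 ρ θ)) k ρ| ≤
      om * Mg := fun ρ hρ k => xeMode_le hom (fun θ hθ => by
        have := hmem ρ hρ θ hθ
        exact hMg _ ⟨this.1, ball_subset_ball hr32 this.2⟩) k
  have hg2b : ∀ ρ ∈ Ioo 0 (2 * r), ∀ k, |xeMode om (fun ρ θ => g2 (p + s + yy e1 e2 ρ θ)) k ρ| ≤
      om * Mg2 := fun ρ hρ k => xeMode_le hom (fun θ hθ => hMg2 _ (hmem ρ hρ θ hθ)) k
  have hsub : ∀ ρ ∈ Ioo 0 (2 * r), ρ ∈ Ioo 0 (r3 - ‖s‖) := fun ρ hρ =>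
    ⟨hρ.1, by linarith [hρ.2]⟩
  -- improved bound for the first mode of g
  have hg1 : Real.pi / om = 2 → ∀ ρ ∈ Ioo 0 r,
      |xeMode om (fun ρ θ => g (p + s + yy e1 e2 ρ θ)) 1 ρ| ≤ K * ρ ^ (3 / 2 : ℝ) := by
    intro hβ ρ hρ
    obtain ⟨a', a'', hode⟩ := mode_ode P hF hC3 hgN hgeq 1 hs hsR3
    have h2r : (0 : ℝ) < 2 * r := by positivity
    have key := ode_large (r := 2 * r) (K := K2) (M := om * Mg) (τ := -1 / 2) (μ := 2) h2r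
      hK20 (by norm_num) (by norm_num)
      (fun ρ => xeMode om (fun ρ θ => g (p + s + yy e1 e2 ρ θ)) 1 ρ) a' a''
      (fun ρ => - xeMode om (fun ρ θ => g2 (p + s + yy e1 e2 ρ θ)) 1 ρ)
      (fun ρ hρ => (hode ρ (hsub ρ hρ)).1) (fun ρ hρ => (hode ρ (hsub ρ hρ)).2.1)
      (fun ρ hρ => by
        have := (hode ρ (hsub ρ hρ)).2.2
        rw [hβ] at this
        unfold xeMode
        rw [hβ]
        simpa using this)
      (fun ρ hρ => by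
        rw [abs_neg]
        refine (hg2b ρ hρ 1).trans ?_
        have h1 : ρ ^ (1 / 2 : ℝ) ≤ (2 * r) ^ (1 / 2 : ℝ) :=
          Real.rpow_le_rpow hρ.1.le hρ.2.le (by norm_num)
        have h2 : ρ ^ (1 / 2 : ℝ) * ρ ^ (-1 / 2 : ℝ) = 1 := by
          rw [← Real.rpow_add hρ.1]; norm_num
        have h3 : 0 ≤ ρ ^ (-1 / 2 : ℝ) := Real.rpow_nonneg hρ.1.le _
        calc om * Mg2 = om * Mg2 * (ρ ^ (1 / 2 : ℝ) * ρ ^ (-1 / 2 : ℝ)) := by rw [h2, mul_one]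
          _ ≤ om * Mg2 * ((2 * r) ^ (1 / 2 : ℝ) * ρ ^ (-1 / 2 : ℝ)) := by gcongr
          _ = _ := by rw [hK2]; ring)
      (fun ρ hρ => hgb ρ hρ 1) r ⟨hr, by linarith⟩ ρ ⟨hρ.1, hρ.2.le⟩
    have hρ0 := hρ.1
    have e1 : (ρ / r) ^ (2 : ℝ) ≤ r ^ (1 / 2 : ℝ) / r ^ 2 * ρ ^ (3 / 2 : ℝ) := by
      rw [Real.rpow_two]
      have h1 : ρ ^ 2 = ρ ^ (1 / 2 : ℝ) * ρ ^ (3 / 2 : ℝ) := by
        rw [← Real.rpow_add hρ0, ← Real.rpow_two]; norm_num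
      rw [div_pow, h1]
      have h2 : ρ ^ (1 / 2 : ℝ) ≤ r ^ (1 / 2 : ℝ) :=
        Real.rpow_le_rpow hρ0.le hρ.2.le (by norm_num)
      have h3 : 0 ≤ ρ ^ (3 / 2 : ℝ) := Real.rpow_nonneg hρ0.le _
      rw [div_mul_eq_mul_div]
      gcongr
    have e2 : (2 : ℝ) + -1 / 2 = 3 / 2 := by norm_num
    have e3 : ((2 : ℝ) - 2 - -1 / 2) * (2 + 2 + -1 / 2) = 7 / 4 := by norm_num
    rw [e2, e3] at key
    have h3 : 0 ≤ ρ ^ (3 / 2 : ℝ) := Real.rpow_nonneg hρ0.le _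
    calc _ ≤ _ := key
      _ ≤ (r ^ (1 / 2 : ℝ) / r ^ 2 * ρ ^ (3 / 2 : ℝ)) * (om * Mg) +
          K2 / (7 / 4) * ρ ^ (3 / 2 : ℝ) := by gcongr
      _ ≤ K * ρ ^ (3 / 2 : ℝ) := by
        rw [hKdef]
        have h4 : 0 ≤ om * Mg * ρ ^ (3 / 2 : ℝ) := by positivity
        nlinarith
  refine hcore (fun ρ θ => w (p + s + yy e1 e2 ρ θ)) ?_ ?_ ?_
  · intro ρ hρ
    exact xe_lip hF hC3 hwN hs hρ.1 (by linarith [hρ.2])
  · intro ρ hρ θ hθ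
    have := hmem ρ ⟨hρ.1, by linarith [hρ.2]⟩ θ hθ
    exact hMw _ ⟨this.1, ball_subset_ball hr31 this.2⟩
  · intro k
    obtain ⟨a', a'', hode⟩ := mode_ode P hF hC3 hwN hweq k hs hsR3
    refine ⟨a', a'', fun ρ => - xeMode om (fun ρ θ => g (p + s + yy e1 e2 ρ θ)) k ρ, ?_⟩
    intro ρ hρ
    have hρ2 : ρ ∈ Ioo 0 (2 * r) := ⟨hρ.1, by linarith [hρ.2]⟩
    obtain ⟨h1, h2, h3⟩ := hode ρ (hsub ρ hρ2)
    refine ⟨h1, h2, h3, ?_, ?_⟩
    · rw [abs_neg]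
      refine (hgb ρ hρ2 k).trans ?_
      rw [hKdef]
      have : 0 ≤ om * Mg * (r ^ (1 / 2 : ℝ) / r ^ 2) + K2 / (7 / 4) := by positivity
      linarith
    · intro hk hβ
      subst hk
      rw [abs_neg]
      exact hg1 hβ ρ hρ

end

end Pool.Agent.Lib_helper58.Robin
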